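import Pool.Agent.Y981.L2.Area5

/-!
The tails of the area of the planar self-avoiding polygons.  The probability that the area of the
uniform polygon with `2 n` steps is at least `k^2` lies, up to factors `exp (± K (log n)^2)`,
between the probabilities that the width is at least `2 k` and that it is at least `k`, and between
the probabilities that the end point of the uniform `2 n`-step self-avoiding walk is `(4 k, 0)` and
`(2 k, 0)`.
-/

set_option autoImplicit false

namespace Pool.Agent.Results.MP_f6626d_co.AreaTailsLogTwo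

/-- a closed nearest-neighbour loop on `ℤ²` with `m` steps, rooted at the origin and oriented,
that visits no vertex twice -/
def IsLoop (m : ℕ) (f : ZMod m → ℤ × ℤ) : Prop :=
  f 0 = 0 ∧ Function.Injective f ∧
    ∀ i : ZMod m, |(f (i + 1)).1 - (f i).1| + |(f (i + 1)).2 - (f i).2| = 1

/-- the edge from `f k` to `f (k+1)` is horizontal, joins the columns `x = a` and `x = a + 1`, and
has height larger than `b`: it lies above the unit cell `[a, a+1] × [b, b+1]` -/
def Above (m : ℕ) (f : ZMod m → ℤ × ℤ) (a b : ℤ) (k : ZMod m) : Prop :=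
  (((f k).1 = a ∧ (f (k + 1)).1 = a + 1) ∨ ((f k).1 = a + 1 ∧ (f (k + 1)).1 = a)) ∧ b < (f k).2

/-- the unit cell `[a, a+1] × [b, b+1]` is enclosed by the loop: the vertical ray from the cell
upwards crosses an odd number of edges -/
def Encl (m : ℕ) (f : ZMod m → ℤ × ℤ) (c : ℤ × ℤ) : Prop :=
  Odd (Nat.card {k : ZMod m // Above m f c.1 c.2 k})

/-- the area: the number of unit cells enclosed by the loop -/
noncomputable def area (m : ℕ) (f : ZMod m → ℤ × ℤ) : ℕ := Nat.card {c : ℤ × ℤ // Encl m f c}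

/-- the width (horizontal extent) of a loop -/
noncomputable def width (m : ℕ) (f : ZMod m → ℤ × ℤ) : ℕ :=
  sSup {w : ℕ | ∃ i j, w = ((f i).1 - (f j).1).natAbs}

/-- the proportion of the self-avoiding polygons of perimeter `2 n` with area at least `r` -/
noncomputable def large (n : ℕ) (r : ℝ) : ℝ :=
  ({f : ZMod (2 * n) → ℤ × ℤ | IsLoop (2 * n) f ∧ r ≤ area (2 * n) f}.ncard : ℝ) /
    ({f : ZMod (2 * n) → ℤ × ℤ | IsLoop (2 * n) f}.ncard : ℝ)

/-- the proportion of the self-avoiding polygons of perimeter `2 n` with width at least `r` -/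
noncomputable def wide (n : ℕ) (r : ℝ) : ℝ :=
  ({f : ZMod (2 * n) → ℤ × ℤ | IsLoop (2 * n) f ∧ r ≤ width (2 * n) f}.ncard : ℝ) /
    ({f : ZMod (2 * n) → ℤ × ℤ | IsLoop (2 * n) f}.ncard : ℝ)

/-- `ω` is an `n`-step self-avoiding walk on `ℤ²` started at the origin. -/
def IsSAW (n : ℕ) (ω : Fin (n + 1) → ℤ × ℤ) : Prop :=
  ω 0 = (0, 0) ∧
  (∀ i : Fin n, |(ω i.succ).1 - (ω i.castSucc).1| + |(ω i.succ).2 - (ω i.castSucc).2| = 1) ∧
  Function.Injective ω

/-- `c_n`: the number of `n`-step self-avoiding walks from the origin -/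
noncomputable def c (n : ℕ) : ℕ := Nat.card {ω : Fin (n + 1) → ℤ × ℤ // IsSAW n ω}

/-- `c_n(x)`: the number of `n`-step self-avoiding walks from the origin to `x` -/
noncomputable def cx (n : ℕ) (x : ℤ × ℤ) : ℕ :=
  Nat.card {ω : Fin (n + 1) → ℤ × ℤ // IsSAW n ω ∧ ω (Fin.last n) = x}

/-- `P_n(ω(n) = x)` for the uniform `n`-step self-avoiding walk -/
noncomputable def P (n : ℕ) (x : ℤ × ℤ) : ℝ := (cx n x : ℝ) / (c n : ℝ)

theorem c_eq (n : ℕ) : c n = TH795.EP.c n := TH795.EP2.card_walks n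

theorem cx_eq (n : ℕ) (x : ℤ × ℤ) : cx n x = TH795.EP.a n x.1 x.2 := TH795.EP2.card_walks_to n x

/-- **Theorem.** There is `K` such that for all `n ≥ 2` and all `k ≥ 1` with `2 k < n`, for the
uniform self-avoiding polygon of perimeter `2 n`,
`exp (- K (log n)^2) Prob(width ≥ 2 k) ≤ Prob(area ≥ k^2) ≤ 2 Prob(width ≥ k)` and
`exp (- K (log n)^2) P_{2n}(ω(2n) = (4k, 0)) ≤ Prob(area ≥ k^2)
  ≤ exp (K (log n)^2) P_{2n}(ω(2n) = (2k, 0))`. -/
theorem result : ∃ K : ℝ, ∀ n : ℕ, 2 ≤ n → ∀ k : ℕ, 1 ≤ k → 2 * k < n →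
      (Real.exp (-(K * Real.log n ^ 2)) * wide n (2 * k) ≤ large n ((k : ℝ) ^ 2) ∧
        large n ((k : ℝ) ^ 2) ≤ 2 * wide n k) ∧
      (Real.exp (-(K * Real.log n ^ 2)) * P (2 * n) (4 * k, 0) ≤ large n ((k : ℝ) ^ 2) ∧
        large n ((k : ℝ) ^ 2) ≤ Real.exp (K * Real.log n ^ 2) * P (2 * n) (2 * k, 0)) := by
  obtain ⟨K1, hK1, h1⟩ := Y981.L2.area_width
  obtain ⟨K2, hK2, h2⟩ := Y981.L2.area_end
  refine ⟨K1 + K2, ?_⟩
  intro n hn k hk hkn
  obtain ⟨g1, g2⟩ := h1 n hn k hk hkn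
  obtain ⟨g3, g4⟩ := h2 n hn k hk hkn
  have hL : 0 ≤ Real.log n ^ 2 := by positivity
  have e1 := mul_nonneg hK1 hL
  have e2 := mul_nonneg hK2 hL
  have p1 : (0 : ℝ) ≤ wide n (2 * k) := by unfold wide; positivity
  have p2 : ∀ x, (0 : ℝ) ≤ P (2 * n) x := by intro x; unfold P; positivity
  refine ⟨⟨?_, g2⟩, ?_, ?_⟩
  · refine le_trans (mul_le_mul_of_nonneg_right (Real.exp_le_exp.2 ?_) p1) g1
    linarith
  · refine le_trans (mul_le_mul_of_nonneg_right
      (b := Real.exp (-((K1 + K2) * Real.log n ^ 2)))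
      (c := Real.exp (-(K2 * Real.log n ^ 2))) (Real.exp_le_exp.2 ?_) (p2 _)) ?_
    · linarith
    · unfold P
      rw [c_eq, cx_eq]
      exact g3
  · refine g4.trans ?_
    have e3 : (TH795.EP.a (2 * n) (2 * k) 0 : ℝ) / TH795.EP.c (2 * n) = P (2 * n) (2 * k, 0) := by
      unfold P
      rw [c_eq, cx_eq]
    rw [e3]
    refine mul_le_mul_of_nonneg_right (Real.exp_le_exp.2 ?_) (p2 _)
    linarith

end Pool.Agent.Results.MP_f6626d_co.AreaTailsLogTwo
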